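import Pool.Agent.Q74.BH.Stm3

/-! # Project BH, job Lev: equal values at different levels are rare -/

set_option autoImplicit false

namespace Pool.Agent.Q129.BH

open Finset
open Pool.Agent.Q74.AR (oc oc_le oc_succ odds_same)
open Pool.Agent.Q158.Pair (T)
open Pool.Agent.Q158.Col4 (cI cI_bounds)
open Pool.Agent.Q74.BH

open Classical in
/-- the case of `S_FreeA` which is needed -/
def S_FreeB : Prop := ∀ (k : ℕ) (κ ε : ℝ), 0 < κ → 0 < ε → ∃ H₀ : ℕ, ∀ H : ℕ, H₀ ≤ H →
  ∀ t : ℕ, (t : ℝ) ≤ (1 - κ) * (cI * Real.log H) → ∀ (a : ℤ),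
  |(∑ h : Fin k → Fin H, if Function.Injective (fun i => (V0 t a h i).2) then (1 : ℝ) else 0) /
      (H : ℝ) ^ k - 1| ≤ ε

theorem freeB (h : S_FreeA) : S_FreeB := by
  intro k κ ε hκ hε
  obtain ⟨H₀, h1⟩ := h k κ ε hκ hε
  refine ⟨H₀, fun H hH t ht a => ?_⟩
  have h2 := h1 H hH t ht a (fun _ => 1) (fun _ => by simp)
  rw [Pool.Agent.Q74.SF.act_const] at h2
  exact h2



theorem oc_one (x : ℤ) : oc 1 x = if x % 2 = 1 then 1 else 0 := by
  rw [oc_succ]
  simp [oc]

/-- `2 ^ s T ^ s y = 3 ^ o (y + r)` with small `r` -/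
theorem drift {Δ : ℝ} (hΔ : 0 ≤ Δ) (y : ℤ) : ∀ s : ℕ, (∀ i < s, (i : ℝ) ≤ 2 * oc i y + 2 * Δ) →
    ∃ r : ℝ, 0 ≤ r ∧ r ≤ (4 : ℝ) ^ Δ * ((4 / 3 : ℝ) ^ (oc s y) - 1) ∧
      (2 : ℝ) ^ s * ((T^[s] y : ℤ) : ℝ) = 3 ^ (oc s y) * (y + r) := by
  intro s
  induction s with
  | zero =>
    intro _
    refine ⟨0, le_rfl, ?_, ?_⟩
    · simp [oc]
    · simp [oc]
  | succ s ih =>
    intro h
    obtain ⟨r, hr0, hr1, hr2⟩ := ih (fun i hi => h i (by omega))
    have hs := h s (by omega)
    have hoc : oc (s + 1) y = oc s y + oc 1 (T^[s] y) := oc_add s 1 y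
    rw [Function.iterate_succ_apply']
    rcases Int.emod_two_eq_zero_or_one (T^[s] y) with he | he
    · have h1 : oc (s + 1) y = oc s y := by
        rw [hoc, oc_one, if_neg (by omega), add_zero]
      have h2 : 2 * T (T^[s] y) = T^[s] y := by
        unfold T at *
        rw [if_pos he]
        omega
      have h3 : (2 : ℝ) * ((T (T^[s] y) : ℤ) : ℝ) = ((T^[s] y : ℤ) : ℝ) := by exact_mod_cast h2
      refine ⟨r, hr0, ?_, ?_⟩
      · rw [h1]
        exact hr1
      · rw [h1, ← hr2, ← h3, pow_succ]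
        ring
    · have h1 : oc (s + 1) y = oc s y + 1 := by
        rw [hoc, oc_one, if_pos he]
      have h2 : 2 * T (T^[s] y) = 3 * T^[s] y + 1 := by
        unfold T at *
        rw [if_neg (by omega)]
        omega
      have h3 : (2 : ℝ) * ((T (T^[s] y) : ℤ) : ℝ) = 3 * ((T^[s] y : ℤ) : ℝ) + 1 := by exact_mod_cast h2
      have h3p : (0 : ℝ) < 3 ^ (oc s y + 1) := by positivity
      refine ⟨r + 2 ^ s / 3 ^ (oc s y + 1), by positivity, ?_, ?_⟩
      · rw [h1]
        have h4 : (2 : ℝ) ^ s ≤ (4 : ℝ) ^ Δ * 4 ^ (oc s y) := by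
          have e1 : (2 : ℝ) ^ s = (2 : ℝ) ^ ((s : ℕ) : ℝ) := (Real.rpow_natCast 2 s).symm
          have e2 : (4 : ℝ) ^ Δ * 4 ^ (oc s y) = (2 : ℝ) ^ (2 * (oc s y : ℝ) + 2 * Δ) := by
            have e3 : (4 : ℝ) = (2 : ℝ) ^ (2 : ℝ) := by
              rw [show (2 : ℝ) = ((2 : ℕ) : ℝ) by norm_num, Real.rpow_natCast]
              norm_num
            rw [Real.rpow_add (by norm_num : (0 : ℝ) < 2), Real.rpow_mul (by norm_num) 2 Δ,
              Real.rpow_mul (by norm_num) 2 (oc s y : ℝ), ← e3, Real.rpow_natCast]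
            ring
          rw [e1, e2]
          exact Real.rpow_le_rpow_of_exponent_le (by norm_num) hs
        have h5 : (2 : ℝ) ^ s / 3 ^ (oc s y + 1) ≤ (4 : ℝ) ^ Δ * ((4 / 3 : ℝ) ^ (oc s y) / 3) := by
          rw [div_le_iff₀ h3p]
          refine h4.trans (le_of_eq ?_)
          rw [div_pow, pow_succ]
          field_simp
        have h6 : (4 : ℝ) ^ Δ * ((4 / 3 : ℝ) ^ (oc s y + 1) - 1) =
            (4 : ℝ) ^ Δ * ((4 / 3 : ℝ) ^ (oc s y) - 1) + (4 : ℝ) ^ Δ * ((4 / 3 : ℝ) ^ (oc s y) / 3) := by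
          rw [pow_succ]
          ring
        rw [h6]
        exact add_le_add hr1 h5
      · rw [h1]
        have h7 : (3 : ℝ) ^ (oc s y + 1) * (y + (r + 2 ^ s / 3 ^ (oc s y + 1))) =
            3 * (3 ^ (oc s y) * (y + r)) + 2 ^ s := by
          rw [mul_add, mul_add, mul_div_cancel₀ _ h3p.ne', pow_succ]
          ring
        rw [h7, ← hr2, pow_succ]
        linear_combination (2 : ℝ) ^ s * h3

/-- two trajectories with few steps away from the mean which meet at different levels start near `0` -/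
theorem meet {Δ D : ℝ} {y y' : ℤ} {t : ℕ} (hΔ : 0 ≤ Δ)
    (hy : ∀ i < t, (i : ℝ) ≤ 2 * oc i y + 2 * Δ) (hy' : ∀ i < t, (i : ℝ) ≤ 2 * oc i y' + 2 * Δ)
    (hD : (4 : ℝ) ^ Δ * (4 / 3 : ℝ) ^ (oc t y) ≤ D) (hD' : (4 : ℝ) ^ Δ * (4 / 3 : ℝ) ^ (oc t y') ≤ D)
    (hm : T^[t] y = T^[t] y') (ho : oc t y' < oc t y) : |(y : ℝ)| ≤ 2 * D + |(y : ℝ) - y'| := by
  obtain ⟨r, h0, h1, h2⟩ := drift hΔ y t hy
  obtain ⟨r', h0', h1', h2'⟩ := drift hΔ y' t hy'
  have h4 : (0 : ℝ) < (4 : ℝ) ^ Δ := Real.rpow_pos_of_pos (by norm_num) _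
  have hr : r ≤ D := by nlinarith
  have hr' : r' ≤ D := by nlinarith
  rw [hm, h2'] at h2
  obtain ⟨d, hd⟩ : ∃ d, oc t y = oc t y' + (d + 1) := ⟨oc t y - oc t y' - 1, by omega⟩
  have h5 : (y' : ℝ) + r' = 3 ^ (d + 1) * (y + r) := by
    have h6 : (0 : ℝ) < 3 ^ (oc t y') := by positivity
    rw [hd, pow_add, mul_assoc] at h2
    exact mul_left_cancel₀ h6.ne' h2
  have h6 : 3 * |(y : ℝ) + r| ≤ |(y' : ℝ) + r'| := by
    rw [h5, abs_mul]
    refine mul_le_mul_of_nonneg_right ?_ (abs_nonneg _)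
    rw [abs_of_pos (by positivity), pow_succ]
    have : (1 : ℝ) ≤ 3 ^ d := one_le_pow₀ (by norm_num)
    linarith
  have h7 : |(y' : ℝ) + r'| ≤ |(y : ℝ) + r| + (|(y : ℝ) - y'| + D) := by
    have e1 : (y' : ℝ) + r' = (y + r) + (-(y - y') + (r' - r)) := by ring
    rw [e1]
    refine (abs_add_le _ _).trans (add_le_add le_rfl ((abs_add_le _ _).trans ?_))
    rw [abs_neg]
    refine add_le_add le_rfl ?_
    rw [abs_le]
    constructor <;> linarith
  have h8 : |(y : ℝ)| ≤ |(y : ℝ) + r| + r := by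
    have e1 : (y : ℝ) = (y + r) + (-r) := by ring
    calc |(y : ℝ)| = |(y + r) + (-r)| := by rw [← e1]
      _ ≤ |(y : ℝ) + r| + |(-r)| := abs_add_le _ _
      _ = _ := by rw [abs_neg, abs_of_nonneg h0]
  have h9 : 0 ≤ |(y : ℝ) - y'| := abs_nonneg _
  linarith

/-- exponential moments of the binomial law -/
theorem mgf (s : ℕ) (l : ℝ) : ∑ k ∈ range (s + 1), (s.choose k : ℝ) / 2 ^ s * Real.exp (l * (k - s / 2)) ≤
    Real.exp (l ^ 2 * s / 8) := by
  have h1 : ∑ k ∈ range (s + 1), (s.choose k : ℝ) / 2 ^ s * Real.exp (l * (k - s / 2)) =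
      ((Real.exp (l / 2) + Real.exp (-(l / 2))) / 2) ^ s := by
    rw [div_pow, add_pow, sum_div]
    apply sum_congr rfl
    intro k hk
    rw [mem_range] at hk
    have h2 : Real.exp (l * (k - s / 2)) = Real.exp (l / 2) ^ k * Real.exp (-(l / 2)) ^ (s - k) := by
      rw [← Real.exp_nat_mul, ← Real.exp_nat_mul, ← Real.exp_add]
      congr 1
      rw [Nat.cast_sub (by omega)]
      ring
    rw [h2]
    ring
  rw [h1, ← Real.cosh_eq]
  calc Real.cosh (l / 2) ^ s ≤ Real.exp ((l / 2) ^ 2 / 2) ^ s :=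
        pow_le_pow_left₀ (Real.cosh_pos _).le (Real.cosh_le_exp_half_sq _) s
    _ = _ := by
        rw [← Real.exp_nat_mul]
        congr 1
        ring

open Classical in
/-- the tails of the binomial law -/
theorem tail {s t : ℕ} (hst : s ≤ t) (ht : 0 < t) {Δ : ℝ} (hΔ : 0 ≤ Δ) :
    ∑ k ∈ range (s + 1), (s.choose k : ℝ) / 2 ^ s * (if Δ < |(k : ℝ) - s / 2| then 1 else 0) ≤
      2 * Real.exp (-(2 * Δ ^ 2 / t)) := by
  have ht0 : (0 : ℝ) < t := by exact_mod_cast ht
  have hst0 : (s : ℝ) ≤ t := by exact_mod_cast hst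
  set l : ℝ := 4 * Δ / t with hl
  have hl0 : 0 ≤ l := by positivity
  have h1 : ∀ k : ℕ, (if Δ < |(k : ℝ) - s / 2| then (1 : ℝ) else 0) ≤
      Real.exp (-(l * Δ)) * (Real.exp (l * (k - s / 2)) + Real.exp (-l * (k - s / 2))) := by
    intro k
    split_ifs with h
    · rcases le_total 0 ((k : ℝ) - s / 2) with h0 | h0
      · rw [abs_of_nonneg h0] at h
        have h2 : 1 ≤ Real.exp (-(l * Δ)) * Real.exp (l * (k - s / 2)) := by
          rw [← Real.exp_add]
          apply Real.one_le_exp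
          nlinarith
        have h3 : 0 < Real.exp (-(l * Δ)) * Real.exp (-l * (k - s / 2)) := by positivity
        rw [mul_add]
        linarith
      · rw [abs_of_nonpos h0] at h
        have h2 : 1 ≤ Real.exp (-(l * Δ)) * Real.exp (-l * (k - s / 2)) := by
          rw [← Real.exp_add]
          apply Real.one_le_exp
          nlinarith
        have h3 : 0 < Real.exp (-(l * Δ)) * Real.exp (l * (k - s / 2)) := by positivity
        rw [mul_add]
        linarith
    · positivity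
  calc ∑ k ∈ range (s + 1), (s.choose k : ℝ) / 2 ^ s * (if Δ < |(k : ℝ) - s / 2| then 1 else 0)
      ≤ ∑ k ∈ range (s + 1), (s.choose k : ℝ) / 2 ^ s *
          (Real.exp (-(l * Δ)) * (Real.exp (l * (k - s / 2)) + Real.exp (-l * (k - s / 2)))) :=
        sum_le_sum fun k _ => mul_le_mul_of_nonneg_left (h1 k) (by positivity)
    _ = Real.exp (-(l * Δ)) * (∑ k ∈ range (s + 1), (s.choose k : ℝ) / 2 ^ s * Real.exp (l * (k - s / 2)) +
          ∑ k ∈ range (s + 1), (s.choose k : ℝ) / 2 ^ s * Real.exp (-l * (k - s / 2))) := by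
        rw [← sum_add_distrib, mul_sum]
        apply sum_congr rfl
        intro k _
        ring
    _ ≤ Real.exp (-(l * Δ)) * (Real.exp (l ^ 2 * s / 8) + Real.exp ((-l) ^ 2 * s / 8)) :=
        mul_le_mul_of_nonneg_left (add_le_add (mgf s l) (mgf s (-l))) (by positivity)
    _ = 2 * Real.exp (-(l * Δ) + l ^ 2 * s / 8) := by
        rw [Real.exp_add]
        ring_nf
    _ ≤ _ := by
        refine mul_le_mul_of_nonneg_left (Real.exp_le_exp.2 ?_) (by norm_num)
        have h2 : l ^ 2 * s / 8 ≤ l ^ 2 * t / 8 := by gcongr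
        have h3 : -(l * Δ) + l ^ 2 * t / 8 = -(2 * Δ ^ 2 / t) := by
          rw [hl]
          field_simp
          ring
        linarith




open Classical in
/-- the starting points whose number of odd steps is at some time far from the mean -/
noncomputable def Bad (δ : ℝ) (t : ℕ) (a : ℤ) (M : ℕ) : Finset ℤ :=
  (Ico a (a + M)).filter (fun y => ∃ s ≤ t, δ * t < |(oc s y : ℝ) - s / 2|)

theorem exp_neg_le {x : ℝ} (hx : 0 < x) : Real.exp (-x) ≤ 2 / x ^ 2 := by
  rw [Real.exp_neg, inv_eq_one_div, div_le_div_iff₀ (Real.exp_pos x) (by positivity)]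
  have := Real.quadratic_le_exp_of_nonneg hx.le
  nlinarith

theorem few {δ η ε : ℝ} (hδ : 0 < δ) (hη : 0 < η) (hε : 0 < ε) : ∃ t₀ : ℕ, ∀ t : ℕ, t₀ ≤ t → ∀ M : ℕ,
    1 ≤ M → (t : ℝ) ≤ (cI - η) * Real.log M → ∀ a : ℤ, ((Bad δ t a M).card : ℝ) ≤ ε * M := by
  classical
  obtain ⟨δ', C, hδ', hC, hlaw⟩ := Pool.Agent.Q158.Col4.law hη 2
  set K : ℝ := 2 * (1 / δ ^ 4 + 49 * C) with hK
  have hK0 : 0 < K := by positivity
  obtain ⟨n₀, hn₀⟩ := exists_nat_ge (K / ε)
  refine ⟨n₀ + 1, fun t ht M hM1 htM a => ?_⟩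
  have ht1 : 1 ≤ t := by omega
  have ht0 : (0 : ℝ) < t := by exact_mod_cast ht1
  have htr : (1 : ℝ) ≤ t := by exact_mod_cast ht1
  have hc := cI_bounds.2
  have hMr : (1 : ℝ) ≤ M := by exact_mod_cast hM1
  have hlog0 : 0 ≤ Real.log M := Real.log_nonneg hMr
  have hlog : (t : ℝ) / 7 ≤ Real.log M := by
    rw [div_le_iff₀ (by norm_num)]
    nlinarith
  have hlogp : 0 < Real.log M := lt_of_lt_of_le (by positivity) hlog
  have hM2 : 2 ≤ M := by
    by_contra h
    have : M = 1 := by omega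
    rw [this] at hlogp
    simp at hlogp
  have hM0 : (0 : ℝ) < M := by linarith
  -- each time
  have hone : ∀ s ≤ t, (((Ico a (a + M)).filter (fun y => δ * t < |(oc s y : ℝ) - s / 2|)).card : ℝ) ≤
      (1 / δ ^ 4 + 49 * C) / t ^ 2 * M := by
    intro s hs
    have hsr : (s : ℝ) ≤ t := by exact_mod_cast hs
    have h1 := hlaw M hM2 a s (hsr.trans htM) 1 le_rfl (by norm_num) (by
      rw [Nat.cast_one]
      exact Real.one_le_rpow hMr hδ'.le) (fun k _ => δ * t < |(k : ℝ) - s / 2|)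
    have e1 : Pool.Agent.Q158.Col4.model s 1 (fun k _ => δ * t < |(k : ℝ) - s / 2|) =
        ∑ k ∈ range (s + 1), (s.choose k : ℝ) / 2 ^ s * (if δ * t < |(k : ℝ) - s / 2| then 1 else 0) := by
      unfold Pool.Agent.Q158.Col4.model
      apply sum_congr rfl
      intro k _
      by_cases hk : δ * t < |(k : ℝ) - s / 2|
      · have : {r : ℕ | r < 1 ∧ δ * t < |(k : ℝ) - s / 2|} = {0} := by
          ext r
          simp [hk]
        rw [this, if_pos hk]
        simp
      · have : {r : ℕ | r < 1 ∧ δ * t < |(k : ℝ) - s / 2|} = ∅ := by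
          ext r
          simp [hk]
        rw [this, if_neg hk]
        simp
    have e2 : ({x : ℤ | a ≤ x ∧ x < a + M ∧ δ * t < |(Pool.Agent.Q158.Col4.odds s x : ℝ) - s / 2|}.ncard : ℝ) =
        (((Ico a (a + M)).filter (fun y => δ * t < |(oc s y : ℝ) - s / 2|)).card : ℝ) := by
      rw [← Set.ncard_coe_finset]
      congr 2
      ext x
      rw [coe_filter]
      simp only [Set.mem_ofPred_eq, mem_Ico, odds_same]
      tauto
    rw [e1, e2] at h1
    have h2 := tail hs ht1 (show 0 ≤ δ * t by positivity)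
    have h3 : 2 * Real.exp (-(2 * (δ * t) ^ 2 / t)) ≤ 1 / δ ^ 4 / t ^ 2 := by
      have e3 : 2 * (δ * t) ^ 2 / t = 2 * δ ^ 2 * t := by
        field_simp
      rw [e3]
      have h4 := exp_neg_le (show 0 < 2 * δ ^ 2 * t by positivity)
      calc 2 * Real.exp (-(2 * δ ^ 2 * t)) ≤ 2 * (2 / (2 * δ ^ 2 * t) ^ 2) := by linarith
        _ = _ := by
            field_simp
    have h5 : C / Real.log M ^ 2 ≤ 49 * C / t ^ 2 := by
      rw [div_le_div_iff₀ (by positivity) (by positivity)]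
      have h6 : ((t : ℝ) / 7) ^ 2 ≤ Real.log M ^ 2 := pow_le_pow_left₀ (by positivity) hlog 2
      nlinarith
    have h7 := (abs_le.1 h1).2
    have h8 : (((Ico a (a + M)).filter (fun y => δ * t < |(oc s y : ℝ) - s / 2|)).card : ℝ) / M ≤
        (1 / δ ^ 4 + 49 * C) / t ^ 2 := by
      have e4 : (1 / δ ^ 4 + 49 * C) / t ^ 2 = 1 / δ ^ 4 / t ^ 2 + 49 * C / t ^ 2 := by ring
      rw [e4]
      linarith
    rwa [div_le_iff₀ hM0] at h8
  have hsub : Bad δ t a M ⊆ (range (t + 1)).biUnion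
      (fun s => (Ico a (a + M)).filter (fun y => δ * t < |(oc s y : ℝ) - s / 2|)) := by
    intro y hy
    obtain ⟨h1, s, hs, h2⟩ := mem_filter.1 hy
    exact mem_biUnion.2 ⟨s, mem_range.2 (by omega), mem_filter.2 ⟨h1, h2⟩⟩
  calc ((Bad δ t a M).card : ℝ) ≤ (((range (t + 1)).biUnion
        (fun s => (Ico a (a + M)).filter (fun y => δ * t < |(oc s y : ℝ) - s / 2|))).card : ℝ) := by
        exact_mod_cast card_le_card hsub
    _ ≤ ∑ s ∈ range (t + 1), (((Ico a (a + M)).filter (fun y => δ * t < |(oc s y : ℝ) - s / 2|)).card : ℝ) := by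
        exact_mod_cast card_biUnion_le
    _ ≤ ∑ s ∈ range (t + 1), (1 / δ ^ 4 + 49 * C) / t ^ 2 * M :=
        sum_le_sum fun s hs => hone s (by rw [mem_range] at hs; omega)
    _ = ((t : ℝ) + 1) * ((1 / δ ^ 4 + 49 * C) / t ^ 2 * M) := by
        rw [sum_const, card_range, nsmul_eq_mul]
        push_cast
        ring
    _ ≤ (2 * t) * ((1 / δ ^ 4 + 49 * C) / t ^ 2 * M) :=
        mul_le_mul_of_nonneg_right (by linarith) (by positivity)
    _ = K / t * M := by
        rw [hK]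
        field_simp
    _ ≤ ε * M := by
        refine mul_le_mul_of_nonneg_right ?_ hM0.le
        rw [div_le_iff₀ ht0]
        rw [div_le_iff₀ hε] at hn₀
        have h9 : (n₀ : ℝ) ≤ t := by exact_mod_cast (by omega : n₀ ≤ t)
        nlinarith

open Classical in
/-- in every interval of `H` integers two trajectories rarely meet before the time `(1 - κ) cI log H` -/
theorem early (hF : S_FreeB) {κ ε : ℝ} (hκ : 0 < κ) (hε : 0 < ε) : ∃ H₀ : ℕ, ∀ H : ℕ, H₀ ≤ H → 1 ≤ H →
    ∀ t : ℕ, (t : ℝ) ≤ (1 - κ) * (cI * Real.log H) → ∀ x : ℤ,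
    (((range H ×ˢ range H).filter (fun q : ℕ × ℕ =>
      T^[t] (x + q.1) = T^[t] (x + q.2) ∧ oc t (x + q.1) ≠ oc t (x + q.2))).card : ℝ) ≤ ε * (H : ℝ) ^ 2 := by
  obtain ⟨H₀, h⟩ := hF 2 κ ε hκ hε
  refine ⟨H₀, fun H hH hH1 t ht x => ?_⟩
  have h1 := h H hH t ht x
  have hH0 : (0 : ℝ) < (H : ℝ) ^ 2 := by
    have : (0 : ℝ) < H := by exact_mod_cast hH1
    positivity
  have hpos : 0 < H := hH1
  set f : ℕ × ℕ → (Fin 2 → Fin H) := fun q i => if i = 0 then ⟨q.1 % H, Nat.mod_lt _ hpos⟩ else ⟨q.2 % H, Nat.mod_lt _ hpos⟩ with hf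
  set I : Finset (Fin 2 → Fin H) := univ.filter (fun h : Fin 2 → Fin H => Function.Injective (fun i => (V0 t x h i).2)) with hI
  set J : Finset (Fin 2 → Fin H) := univ.filter (fun h : Fin 2 → Fin H => ¬ Function.Injective (fun i => (V0 t x h i).2)) with hJ
  have hsum : (I.card : ℝ) + J.card = (H : ℝ) ^ 2 := by
    have h2 := card_filter_add_card_filter_not (s := (univ : Finset (Fin 2 → Fin H)))
      (fun h : Fin 2 → Fin H => Function.Injective (fun i => (V0 t x h i).2))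
    rw [card_univ, Fintype.card_fun, Fintype.card_fin, Fintype.card_fin] at h2
    exact_mod_cast h2
  have e1 : (∑ h : Fin 2 → Fin H, if Function.Injective (fun i => (V0 t x h i).2) then (1 : ℝ) else 0) = I.card := by
    rw [hI, card_filter]
    push_cast
    rfl
  rw [e1] at h1
  have h3 : (J.card : ℝ) ≤ ε * (H : ℝ) ^ 2 := by
    have h4 := (abs_le.1 h1).1
    have h5 : (1 - ε) * (H : ℝ) ^ 2 ≤ I.card := by
      rw [← le_div_iff₀ hH0]
      linarith
    nlinarith
  refine le_trans ?_ h3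
  have h6 : ((range H ×ˢ range H).filter (fun q : ℕ × ℕ =>
      T^[t] (x + q.1) = T^[t] (x + q.2) ∧ oc t (x + q.1) ≠ oc t (x + q.2))).card ≤ J.card := by
    apply card_le_card_of_injOn f
    · intro q hq
      rw [mem_coe, mem_filter] at hq
      obtain ⟨hq1, hq2, -⟩ := hq
      rw [mem_product, mem_range, mem_range] at hq1
      rw [hJ, mem_coe, mem_filter]
      refine ⟨mem_univ _, fun hinj => ?_⟩
      have h7 : (0 : Fin 2) = 1 := by
        apply hinj
        simp only [V0, hf, if_true]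
        rw [if_neg (by decide : ¬ (1 : Fin 2) = 0)]
        simp only [Nat.mod_eq_of_lt hq1.1, Nat.mod_eq_of_lt hq1.2]
        exact hq2
      exact absurd h7 (by decide)
    · intro q hq q' hq' heq
      rw [mem_coe, mem_filter, mem_product, mem_range, mem_range] at hq hq'
      have h8 := congrFun heq 0
      have h9 := congrFun heq 1
      simp only [hf, if_true] at h8
      simp only [hf] at h9
      rw [if_neg (by decide : ¬ (1 : Fin 2) = 0), if_neg (by decide : ¬ (1 : Fin 2) = 0)] at h9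
      rw [Fin.mk.injEq, Nat.mod_eq_of_lt hq.1.1, Nat.mod_eq_of_lt hq'.1.1] at h8
      rw [Fin.mk.injEq, Nat.mod_eq_of_lt hq.1.2, Nat.mod_eq_of_lt hq'.1.2] at h9
      exact Prod.ext h8 h9
  exact_mod_cast h6

theorem cI_ge : 6 ≤ cI := by
  unfold Pool.Agent.Q158.Col4.cI
  have h1 : Real.log (4 / 3) ≤ 1 / 3 := by
    have := Real.log_le_sub_one_of_pos (show (0 : ℝ) < 4 / 3 by norm_num)
    linarith
  have h2 : 0 < Real.log (4 / 3) := Real.log_pos (by norm_num)
  rw [le_div_iff₀ h2]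
  linarith

theorem cI_log : Real.log (4 / 3) / 2 = 1 / cI := by
  unfold Pool.Agent.Q158.Col4.cI
  have h2 : 0 < Real.log (4 / 3) := Real.log_pos (by norm_num)
  field_simp

theorem log4 : Real.log 4 + Real.log (4 / 3) ≤ 2 := by
  have h1 : Real.log 4 = 2 * Real.log 2 := by
    rw [show (4 : ℝ) = 2 ^ 2 by norm_num, Real.log_pow]
    norm_num
  have h2 := Real.log_two_lt_d9
  have h3 : Real.log (4 / 3) ≤ 1 / 3 := by
    have := Real.log_le_sub_one_of_pos (show (0 : ℝ) < 4 / 3 by norm_num)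
    linarith
  rw [h1]
  linarith




/-- a good starting point -/
theorem not_bad {δ : ℝ} {t : ℕ} {a : ℤ} {M : ℕ} {y : ℤ} (hy : y ∈ Ico a (a + M)) (h : y ∉ Bad δ t a M) :
    ∀ s ≤ t, |(oc s y : ℝ) - s / 2| ≤ δ * t := by
  classical
  intro s hs
  by_contra hc
  exact h (mem_filter.2 ⟨hy, s, hs, lt_of_not_ge hc⟩)

/-- the bound for `4^Δ (4/3)^o` -/
theorem D_bound {δ : ℝ} {t : ℕ} {y : ℤ} (hδ : 0 ≤ δ) (h : ∀ s ≤ t, |(oc s y : ℝ) - s / 2| ≤ δ * t) :
    (4 : ℝ) ^ (δ * t) * (4 / 3 : ℝ) ^ (oc t y) ≤ Real.exp (t / cI + 2 * δ * t) := by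
  have h1 := (abs_le.1 (h t le_rfl)).2
  have h2 : (oc t y : ℝ) ≤ t / 2 + δ * t := by linarith
  have hl : 0 < Real.log (4 / 3) := Real.log_pos (by norm_num)
  have e1 : (4 : ℝ) ^ (δ * t) = Real.exp (Real.log 4 * (δ * t)) := by
    rw [Real.rpow_def_of_pos (by norm_num)]
  have e2 : (4 / 3 : ℝ) ^ (oc t y) = Real.exp (oc t y * Real.log (4 / 3)) := by
    rw [Real.exp_nat_mul, Real.exp_log (by norm_num)]
  rw [e1, e2, ← Real.exp_add]
  apply Real.exp_le_exp.2
  have h3 : (oc t y : ℝ) * Real.log (4 / 3) ≤ (t / 2 + δ * t) * Real.log (4 / 3) :=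
    mul_le_mul_of_nonneg_right h2 hl.le
  have h4 : (t : ℝ) / 2 * Real.log (4 / 3) = t / cI := by
    have := cI_log
    calc (t : ℝ) / 2 * Real.log (4 / 3) = t * (Real.log (4 / 3) / 2) := by ring
      _ = _ := by rw [this]; ring
  have h5 : 0 ≤ δ * t := by positivity
  have h6 := log4
  nlinarith

theorem good_le {δ : ℝ} {t : ℕ} {y : ℤ} (h : ∀ s ≤ t, |(oc s y : ℝ) - s / 2| ≤ δ * t) :
    ∀ i < t, (i : ℝ) ≤ 2 * oc i y + 2 * (δ * t) := by
  intro i hi
  have := (abs_le.1 (h i hi.le)).1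
  linarith

theorem card_abs (a : ℤ) (L : ℕ) {R : ℝ} (hR : 0 ≤ R) :
    (((Ico a (a + L)).filter (fun x : ℤ => |(x : ℝ)| ≤ R)).card : ℝ) ≤ 2 * R + 1 := by
  have hsub : (Ico a (a + L)).filter (fun x : ℤ => |(x : ℝ)| ≤ R) ⊆ Icc (-⌊R⌋) ⌊R⌋ := by
    intro x hx
    have h1 := abs_le.1 (mem_filter.1 hx).2
    rw [mem_Icc]
    constructor
    · have h2 : -x ≤ ⌊R⌋ := by
        rw [Int.le_floor]
        push_cast
        linarith
      omega
    · rw [Int.le_floor]
      exact h1.2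
  have h1 := card_le_card hsub
  rw [Int.card_Icc] at h1
  have h2 : 0 ≤ ⌊R⌋ := Int.floor_nonneg.2 hR
  have h3 : ((⌊R⌋ + 1 - -⌊R⌋).toNat : ℤ) = 2 * ⌊R⌋ + 1 := by
    rw [Int.toNat_of_nonneg (by omega)]
    ring
  have h4 : (((Ico a (a + L)).filter (fun x : ℤ => |(x : ℝ)| ≤ R)).card : ℤ) ≤ 2 * ⌊R⌋ + 1 := by
    rw [← h3]
    exact_mod_cast h1
  have h5 : (((Ico a (a + L)).filter (fun x : ℤ => |(x : ℝ)| ≤ R)).card : ℝ) ≤ 2 * (⌊R⌋ : ℝ) + 1 := by
    exact_mod_cast h4
  have h6 := Int.floor_le R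
  linarith

open Classical in
theorem late {δ : ℝ} (hδ : 0 ≤ δ) (t H L : ℕ) (a : ℤ) {D : ℝ} (hD : Real.exp (t / cI + 2 * δ * t) ≤ D) :
    ((((Ico a (a + L)) ×ˢ (range H ×ˢ range H)).filter (fun p : ℤ × ℕ × ℕ =>
      T^[t] (p.1 + p.2.1) = T^[t] (p.1 + p.2.2) ∧ oc t (p.1 + p.2.1) ≠ oc t (p.1 + p.2.2))).card : ℝ) ≤
    (2 * (Bad δ t a (L + H)).card + (4 * D + 4 * H + 1)) * (H : ℝ) ^ 2 := by
  set Q := range H ×ˢ range H with hQ
  have hQc : (Q.card : ℝ) = (H : ℝ) ^ 2 := by
    rw [hQ, card_product, card_range]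
    push_cast
    ring
  have hD0 : 0 < D := lt_of_lt_of_le (Real.exp_pos _) hD
  set B₁ := ((Ico a (a + L)) ×ˢ Q).filter (fun p : ℤ × ℕ × ℕ => p.1 + p.2.1 ∈ Bad δ t a (L + H)) with hB₁
  set B₂ := ((Ico a (a + L)) ×ˢ Q).filter (fun p : ℤ × ℕ × ℕ => p.1 + p.2.2 ∈ Bad δ t a (L + H)) with hB₂
  set B₃ := ((Ico a (a + L)).filter (fun x : ℤ => |(x : ℝ)| ≤ 2 * D + 2 * H)) ×ˢ Q with hB₃
  have hsub : ((Ico a (a + L)) ×ˢ Q).filter (fun p : ℤ × ℕ × ℕ =>
      T^[t] (p.1 + p.2.1) = T^[t] (p.1 + p.2.2) ∧ oc t (p.1 + p.2.1) ≠ oc t (p.1 + p.2.2)) ⊆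
      B₁ ∪ (B₂ ∪ B₃) := by
    rintro ⟨x, h, h'⟩ hp
    rw [mem_filter, mem_product, hQ, mem_product, mem_Ico, mem_range, mem_range] at hp
    obtain ⟨⟨hx, hh, hh'⟩, hT, ho⟩ := hp
    simp only at hx hh hh' hT ho
    rw [mem_union, mem_union]
    by_cases h1 : x + (h : ℤ) ∈ Bad δ t a (L + H)
    · left
      rw [hB₁, mem_filter, mem_product, hQ, mem_product, mem_Ico, mem_range, mem_range]
      exact ⟨⟨hx, hh, hh'⟩, h1⟩
    · by_cases h2 : x + (h' : ℤ) ∈ Bad δ t a (L + H)
      · right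
        left
        rw [hB₂, mem_filter, mem_product, hQ, mem_product, mem_Ico, mem_range, mem_range]
        exact ⟨⟨hx, hh, hh'⟩, h2⟩
      · right
        right
        rw [hB₃, mem_product, mem_filter, hQ, mem_product, mem_Ico, mem_range, mem_range]
        refine ⟨⟨hx, ?_⟩, hh, hh'⟩
        have g1 := not_bad (M := L + H) (by rw [mem_Ico]; push_cast; omega) h1
        have g2 := not_bad (M := L + H) (by rw [mem_Ico]; push_cast; omega) h2
        have d1 := (D_bound hδ g1).trans hD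
        have d2 := (D_bound hδ g2).trans hD
        have hdif : |((x + (h : ℤ) : ℤ) : ℝ) - ((x + (h' : ℤ) : ℤ) : ℝ)| ≤ H := by
          push_cast
          have e1 : (x : ℝ) + h - (x + h') = h - h' := by ring
          rw [e1, abs_le]
          have a1 : (h : ℝ) ≤ H := by exact_mod_cast hh.le
          have a2 : (h' : ℝ) ≤ H := by exact_mod_cast hh'.le
          have a3 : (0 : ℝ) ≤ h := Nat.cast_nonneg h
          have a4 : (0 : ℝ) ≤ h' := Nat.cast_nonneg h'
          constructor <;> linarith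
        have hδt : 0 ≤ δ * t := by positivity
        rcases lt_or_gt_of_ne ho with hlt | hgt
        · have h3 := meet hδt (good_le g2) (good_le g1) d2 d1 hT.symm hlt
          rw [abs_sub_comm] at hdif
          have h4 : |((x + (h' : ℤ) : ℤ) : ℝ)| ≤ 2 * D + H := h3.trans (by linarith)
          have h5 := abs_le.1 h4
          push_cast at h5
          change |(x : ℝ)| ≤ 2 * D + 2 * H
          rw [abs_le]
          have a2 : (h' : ℝ) ≤ H := by exact_mod_cast hh'.le
          have a4 : (0 : ℝ) ≤ h' := Nat.cast_nonneg h'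
          have a5 : (0 : ℝ) ≤ H := Nat.cast_nonneg H
          constructor <;> linarith [h5.1, h5.2]
        · have h3 := meet hδt (good_le g1) (good_le g2) d1 d2 hT hgt
          have h4 : |((x + (h : ℤ) : ℤ) : ℝ)| ≤ 2 * D + H := h3.trans (by linarith)
          have h5 := abs_le.1 h4
          push_cast at h5
          change |(x : ℝ)| ≤ 2 * D + 2 * H
          rw [abs_le]
          have a2 : (h : ℝ) ≤ H := by exact_mod_cast hh.le
          have a4 : (0 : ℝ) ≤ h := Nat.cast_nonneg h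
          have a5 : (0 : ℝ) ≤ H := Nat.cast_nonneg H
          constructor <;> linarith [h5.1, h5.2]
  have c1 : (B₁.card : ℝ) ≤ (Bad δ t a (L + H)).card * (H : ℝ) ^ 2 := by
    rw [← hQc]
    have : B₁.card ≤ (Bad δ t a (L + H) ×ˢ Q).card := by
      apply card_le_card_of_injOn (fun p : ℤ × ℕ × ℕ => (p.1 + (p.2.1 : ℤ), p.2))
      · intro p hp
        rw [hB₁, mem_coe, mem_filter, mem_product] at hp
        rw [mem_coe, mem_product]
        exact ⟨hp.2, hp.1.2⟩
      · rintro ⟨x, h, h'⟩ _ ⟨x2, h2, h2'⟩ _ heq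
        simp only [Prod.mk.injEq] at heq
        obtain ⟨e1, e2, e3⟩ := heq
        subst e2 e3
        rw [Prod.mk.injEq]
        exact ⟨by linarith, rfl⟩
    rw [card_product] at this
    exact_mod_cast this
  have c2 : (B₂.card : ℝ) ≤ (Bad δ t a (L + H)).card * (H : ℝ) ^ 2 := by
    rw [← hQc]
    have : B₂.card ≤ (Bad δ t a (L + H) ×ˢ Q).card := by
      apply card_le_card_of_injOn (fun p : ℤ × ℕ × ℕ => (p.1 + (p.2.2 : ℤ), p.2))
      · intro p hp
        rw [hB₂, mem_coe, mem_filter, mem_product] at hp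
        rw [mem_coe, mem_product]
        exact ⟨hp.2, hp.1.2⟩
      · rintro ⟨x, h, h'⟩ _ ⟨x2, h2, h2'⟩ _ heq
        simp only [Prod.mk.injEq] at heq
        obtain ⟨e1, e2, e3⟩ := heq
        subst e2 e3
        rw [Prod.mk.injEq]
        exact ⟨by linarith, rfl⟩
    rw [card_product] at this
    exact_mod_cast this
  have c3 : (B₃.card : ℝ) ≤ (4 * D + 4 * H + 1) * (H : ℝ) ^ 2 := by
    rw [hB₃, card_product, Nat.cast_mul, hQc]
    refine mul_le_mul_of_nonneg_right ?_ (by positivity)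
    refine (card_abs a L (by positivity)).trans (by linarith)
  have h1 := card_le_card hsub
  have h2 := (h1.trans (card_union_le _ _)).trans (Nat.add_le_add_left (card_union_le _ _) _)
  have h3 : ((((Ico a (a + L)) ×ˢ Q).filter (fun p : ℤ × ℕ × ℕ =>
      T^[t] (p.1 + p.2.1) = T^[t] (p.1 + p.2.2) ∧ oc t (p.1 + p.2.1) ≠ oc t (p.1 + p.2.2))).card : ℝ) ≤
      B₁.card + (B₂.card + B₃.card) := by exact_mod_cast h2
  nlinarith

theorem lev' (hF : S_FreeB) : S_Lev := by
  classical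
  intro κ₀ ε hκ₀ hε
  set κ : ℝ := min κ₀ 1 with hκdef
  have hκ : 0 < κ := lt_min hκ₀ one_pos
  have hκ1 : κ ≤ 1 := min_le_right _ _
  have hκ₀' : κ ≤ κ₀ := min_le_left _ _
  have hcb := cI_bounds
  have hc6 := cI_ge
  have hc0 : 0 < cI := by linarith
  obtain ⟨H₀, hE⟩ := early hF (show 0 < κ / 4 by positivity) hε
  set δ : ℝ := κ / (4 * cI) with hδdef
  have hδ : 0 < δ := by positivity
  set η : ℝ := cI * (κ / (1 + κ)) with hηdef
  have hη : 0 < η := by positivity
  obtain ⟨t₁, hfew⟩ := few hδ hη (show 0 < ε / 8 by positivity)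
  obtain ⟨t₂, ht₂⟩ := exists_nat_ge (252 / (κ * ε))
  refine ⟨7 * H₀ + t₁ + t₂ + 7, fun t ht H L hH hHL hcond a => ?_⟩
  have htr : (0 : ℝ) < t := by
    have : 0 < t := by omega
    exact_mod_cast this
  have hHr : (1 : ℝ) ≤ H := by exact_mod_cast hH
  have hH0 : (0 : ℝ) < H := by linarith
  have hLr : (H : ℝ) ≤ L := by exact_mod_cast hHL
  have hL0 : (0 : ℝ) < L := by linarith
  have hcond' : (1 + κ) * t ≤ cI * Real.log H + Real.logb 2 (L / H) := by
    refine le_trans ?_ hcond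
    exact mul_le_mul_of_nonneg_right (by linarith) htr.le
  by_cases hcase : (t : ℝ) ≤ (1 - κ / 4) * (cI * Real.log H)
  · -- the early times
    have hlogH : (t : ℝ) / 7 ≤ Real.log H := by
      rw [div_le_iff₀ (by norm_num)]
      have hl0 : 0 ≤ Real.log H := Real.log_nonneg hHr
      have h1 : (1 - κ / 4) * (cI * Real.log H) ≤ cI * Real.log H := by
        have : 0 ≤ cI * Real.log H := by positivity
        nlinarith
      nlinarith
    have hHbig : H₀ ≤ H := by
      have h1 : (H₀ : ℝ) ≤ t / 7 := by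
        rw [le_div_iff₀ (by norm_num)]
        exact_mod_cast (by omega : H₀ * 7 ≤ t)
      have h2 : Real.log H ≤ H - 1 := Real.log_le_sub_one_of_pos hH0
      have h3 : (H₀ : ℝ) ≤ H := by linarith
      exact_mod_cast h3
    have h1 := hE H hHbig hH t hcase
    rw [card_filter, sum_product]
    push_cast
    calc ∑ x ∈ Ico a (a + L), ∑ q ∈ range H ×ˢ range H,
          (if T^[t] (x + (q.1 : ℤ)) = T^[t] (x + (q.2 : ℤ)) ∧ oc t (x + (q.1 : ℤ)) ≠ oc t (x + (q.2 : ℤ)) then (1 : ℝ) else 0)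
        ≤ ∑ x ∈ Ico a (a + L), ε * (H : ℝ) ^ 2 := by
          apply sum_le_sum
          intro x _
          have h2 := h1 x
          rw [card_filter] at h2
          push_cast at h2
          exact h2
      _ = ε * (L * (H : ℝ) ^ 2) := by
          rw [sum_const, Int.card_Ico, nsmul_eq_mul]
          have : ((a + (L : ℤ) - a).toNat) = L := by omega
          rw [this]
          ring
  · -- the late times
    have hcase' : (1 - κ / 4) * (cI * Real.log H) < t := lt_of_not_ge hcase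
    set X : ℝ := cI * Real.log H with hX
    have hX0 : 0 ≤ X := by
      have := Real.log_nonneg hHr
      positivity
    have hXt : X ≤ (1 + κ / 3) * t := by
      have h1 : (1 : ℝ) ≤ (1 + κ / 3) * (1 - κ / 4) := by nlinarith
      have h2 : X ≤ (1 + κ / 3) * ((1 - κ / 4) * X) := by nlinarith
      have h3 : (1 + κ / 3) * ((1 - κ / 4) * X) ≤ (1 + κ / 3) * t :=
        mul_le_mul_of_nonneg_left hcase'.le (by positivity)
      linarith
    have hlogb : 2 * κ / 3 * t ≤ Real.logb 2 (L / H) := by linarith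
    have hl2 : 0 < Real.log 2 := Real.log_pos (by norm_num)
    have hl2' := Real.log_two_gt_d9
    have hLH : Real.log (L / H) = Real.log L - Real.log H := Real.log_div hL0.ne' hH0.ne'
    have hlb : Real.logb 2 (L / H) * Real.log 2 = Real.log (L / H) := by
      rw [Real.logb, div_mul_cancel₀ _ hl2.ne']
    have hlogr0 : 0 ≤ Real.logb 2 (L / H) := le_trans (by positivity) hlogb
    have hlogL : (1 + κ) * t ≤ cI * Real.log L := by
      have h1 : Real.logb 2 (L / H) ≤ cI * Real.log (L / H) := by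
        rw [← hlb]
        have h2 : (1 : ℝ) ≤ cI * Real.log 2 := by nlinarith
        nlinarith
      rw [hLH] at h1
      linarith
    have hlogHL : Real.log H ≤ Real.log L - κ * t / 14 := by
      have h1 : 2 * κ / 3 * t * Real.log 2 ≤ Real.log (L / H) := by
        rw [← hlb]
        exact mul_le_mul_of_nonneg_right hlogb hl2.le
      rw [hLH] at h1
      have h2 : κ * t / 14 ≤ 2 * κ / 3 * t * Real.log 2 := by
        have : 0 ≤ κ * t := by positivity
        nlinarith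
      linarith
    -- the bad starting points
    have hbad : ((Bad δ t a (L + H)).card : ℝ) ≤ ε / 8 * ((L + H : ℕ) : ℝ) := by
      apply hfew t (by omega) (L + H) (by omega)
      have h1 : (cI - η) = cI / (1 + κ) := by
        rw [hηdef]
        field_simp
        ring
      have h2 : Real.log L ≤ Real.log ((L + H : ℕ) : ℝ) := by
        apply Real.log_le_log hL0
        push_cast
        linarith
      rw [h1, div_mul_eq_mul_div, le_div_iff₀ (by positivity)]
      have h3 : cI * Real.log L ≤ cI * Real.log ((L + H : ℕ) : ℝ) := mul_le_mul_of_nonneg_left h2 hc0.le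
      linarith
    have hbad' : ((Bad δ t a (L + H)).card : ℝ) ≤ ε / 4 * L := by
      push_cast at hbad
      have : ε / 8 * ((L : ℝ) + H) ≤ ε / 8 * (L + L) := mul_le_mul_of_nonneg_left (by linarith) (by positivity)
      linarith
    -- the constant `D`
    set Z : ℝ := Real.exp (-(κ * t / 14)) with hZ
    have hZ0 : 0 < Z := Real.exp_pos _
    have hLe : Real.exp (Real.log L - κ * t / 14) = L * Z := by
      rw [sub_eq_add_neg, Real.exp_add, Real.exp_log hL0]
    have hD : Real.exp (t / cI + 2 * δ * t) ≤ L * Z := by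
      rw [← hLe]
      apply Real.exp_le_exp.2
      have h1 : (1 + κ) * t / cI ≤ Real.log L := by
        rw [div_le_iff₀ hc0]
        linarith
      have h2 : 2 * δ * t = κ * t / (2 * cI) := by
        rw [hδdef]
        field_simp
        norm_num
      have h3 : (1 + κ) * t / cI = t / cI + κ * t / (2 * cI) + κ * t / (2 * cI) := by
        field_simp
        ring
      have h4 : κ * t / 14 ≤ κ * t / (2 * cI) := by
        apply div_le_div_of_nonneg_left (by positivity) (by positivity)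
        linarith
      linarith
    have hHZ : (H : ℝ) ≤ L * Z := by
      rw [← hLe, ← Real.log_le_iff_le_exp hH0]
      exact hlogHL
    have h1Z : (1 : ℝ) ≤ L * Z := hHr.trans hHZ
    have hZε : 9 * Z ≤ ε / 2 := by
      have hx : 0 < κ * t / 14 := by positivity
      have h1 : Z ≤ 14 / (κ * t) := by
        rw [hZ, Real.exp_neg, inv_eq_one_div, div_le_div_iff₀ (Real.exp_pos _) (by positivity)]
        have h2 := Real.add_one_le_exp (κ * t / 14)
        have h3 : κ * t = 14 * (κ * t / 14) := by ring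
        nlinarith
      have h2 : 9 * (14 / (κ * t)) ≤ ε / 2 := by
        have h3 : 252 / (κ * ε) ≤ t := ht₂.trans (by exact_mod_cast (by omega : t₂ ≤ t))
        rw [div_le_iff₀ (by positivity)] at h3
        rw [mul_div_assoc', div_le_iff₀ (by positivity)]
        nlinarith
      linarith
    have hlate := late hδ.le t H L a hD
    refine hlate.trans ?_
    have hHH : 0 ≤ (H : ℝ) ^ 2 := by positivity
    have hfin : 2 * ((Bad δ t a (L + H)).card : ℝ) + (4 * (L * Z) + 4 * H + 1) ≤ ε * L := by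
      have h1 : 9 * Z * L ≤ ε / 2 * L := mul_le_mul_of_nonneg_right hZε hL0.le
      nlinarith
    calc (2 * ((Bad δ t a (L + H)).card : ℝ) + (4 * (L * Z) + 4 * H + 1)) * (H : ℝ) ^ 2
        ≤ (ε * L) * (H : ℝ) ^ 2 := mul_le_mul_of_nonneg_right hfin hHH
      _ = _ := by ring


theorem lev (hFr : S_FreeA) : S_Lev := lev' (freeB hFr)

end Pool.Agent.Q129.BH
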